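import Mathlib

/-!
# Project EH (MP_d5a1e1_nt, Erdős-Turán for `h`-fold sums, every `h ≥ 2`): statements with proofs

Theorem R (random perturbations): let `a` be strictly increasing, `a n ≤ C (n + 1) ^ h`, `Z n` independent random natural
numbers such that for every fixed `z` and `ε > 0` one has `P (Z n = z) ≥ n ^ (-ε)` for large `n`; then almost surely the
`h`-fold representation function of `{a n + Z n}` is unbounded. (Known for `h = 2` only; new idea: sunflowers.)

Theorem B (block shifts): one random rigid shift for each dyadic block (the theorem `block_shifts` of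
`Pool.Agent.V5helper43.ET.Shifts` for all `h`).
-/

set_option autoImplicit false

open Finset MeasureTheory ProbabilityTheory

namespace Pool.Agent.V5helper43.EH

/-- the number of ordered representations of `m` as a sum of `h` elements of `A` -/
noncomputable def repO (A : Set ℕ) (h m : ℕ) : ℕ := {f : Fin h → ℕ | (∀ i, f i ∈ A) ∧ ∑ i, f i = m}.ncard

/-- the number of unordered representations of `m` as a sum of `h` elements of `A` -/
noncomputable def repU (A : Set ℕ) (h m : ℕ) : ℕ :=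
  {s : Multiset ℕ | s.card = h ∧ (∀ x ∈ s, x ∈ A) ∧ s.sum = m}.ncard

/-- (ORD) Every multiset with `h` elements comes from at most `h !` tuples (`f ↦ Multiset.map f univ.val`; the tuples with the
same multiset `s` are the lists which are permutations of `s.toList`, at most `h !` of them). The set of the multisets is
finite (elements `≤ m`). -/
def S_ORD : Prop := ∀ (A : Set ℕ) (h m : ℕ), repO A h m ≤ h.factorial * repU A h m

/-! ## Theorem R -/

/-- (SUN) The sunflower lemma of Erdős and Rado. Induction on `h` (`h = 0`: a family of `0`-sets has at most one element; so the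
hypothesis is false as `q ≥ 1`). Take a maximal pairwise disjoint subfamily; if it has at least `q` members, they form a sunflower
with `S = ∅`. Otherwise its union `Y` has at most `h (q - 1)` elements and meets every member of `𝓕` (`h ≥ 1`), so some `y` lies in more than
`(h - 1)! (q - 1) ^ (h - 1)` members; apply the induction hypothesis to `{e \ {y} : y ∈ e ∈ 𝓕}` and add `y`. -/
def S_SUN : Prop := ∀ (h q : ℕ) (𝓕 : Finset (Finset ℕ)), 1 ≤ q → (∀ e ∈ 𝓕, e.card = h) →
  h.factorial * (q - 1) ^ h < 𝓕.card → ∃ (S : Finset ℕ) (g : Fin q → Finset ℕ), Function.Injective g ∧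
    (∀ t, g t ∈ 𝓕 ∧ S ⊆ g t) ∧ ∀ t t', t ≠ t' → g t ∩ g t' = S

/-- (WND) Pigeonhole. `G` has at least `(I / h) ^ h` (`Nat.pow_le_choose`-type bound: `choose n h ≥ (n / h) ^ h`) subsets with `h` elements; their sums are at most
`h C (3 I) ^ h`. There are at most `h C (3 I) ^ h / V + 1` windows `[s V', (s + 1) V')`, so for `V = 2 Q h ^ (h + 1) 3 ^ h (C + 1)` and `I ≥ I₀` one of them
contains the sums of at least `Q` subsets. (Choose `V` and `I₀` as convenient.) -/
def S_WND : Prop := ∀ h C Q : ℕ, 2 ≤ h → ∃ V I₀ : ℕ, ∀ (a : ℕ → ℕ), (∀ n, a n ≤ C * (n + 1) ^ h) → ∀ I ≥ I₀,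
  ∀ G : Finset ℕ, G ⊆ Finset.Ico I (3 * I) → I ≤ G.card → ∃ s : ℕ,
    Q ≤ ((G.powersetCard h).filter (fun e => s ≤ ∑ v ∈ e, a v ∧ ∑ v ∈ e, a v < s + V)).card

/-- (STR) From SUN and WND (`q = K`, `Q = h ! K ^ h + 1`). Let `S`, `g t` (`t < K`) be a sunflower in a window `[s, s + V)`; the petals
`g t \ S` are disjoint, with the same number `p ≥ 1` of elements.
(i) `p ≥ 2`: let `v t ≠ u t` be two elements of the petal of `t`, `z (v t) = s + V - ∑_{x ∈ g t} a x ≤ V` and `z = 0` elsewhere.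
If `b x = a x + z x` for `x ∈ F = ⋃ g t`, then the `K` tuples consisting of the values of `b` on `g t` in an order which begins with
`u t` have sum `s + V` and are different, as `b (u t) = a (u t)` and `a` is injective.
(ii) `p = 1`, petals `{v t}`: `|a (v t) - a (v t')| < V` (the sum over `S` is common). Let `β` be the maximum of the `a (v t)`, and
`z (v t) = β + t - a (v t) ≤ V + K`, so `b (v t) = β + t`; the `K` tuples `(β + t, β + (K - 1 - t), β, …, β)` have sum `h β + K - 1`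
(`β = b (v 0)`). -/
def S_STR : Prop := ∀ h C K : ℕ, 2 ≤ h → 1 ≤ K → ∃ V I₀ : ℕ, ∀ (a : ℕ → ℕ), StrictMono a →
  (∀ n, a n ≤ C * (n + 1) ^ h) → ∀ I ≥ I₀, ∀ G : Finset ℕ, G ⊆ Finset.Ico I (3 * I) → I ≤ G.card →
  ∃ (F : Finset ℕ) (z : ℕ → ℕ), F ⊆ G ∧ F.card ≤ h * K ∧ (∀ x, z x ≤ V) ∧
    ∀ b : ℕ → ℕ, (∀ x ∈ F, b x = a x + z x) → ∃ m, K ≤ repO (Set.range b) h m

/-- (GRE) Greedy choice from STR: if `F 0, …, F (i - 1)` are chosen, `i < I / (h K)`, then `G = Ico I (3 I) \ ⋃ F` has at least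
`2 I - i h K ≥ I` elements. (`F i` may be replaced by nothing else; the `F i` are disjoint.) -/
def S_GRE : Prop := ∀ h C K : ℕ, 2 ≤ h → 1 ≤ K → ∃ V I₀ : ℕ, ∀ (a : ℕ → ℕ), StrictMono a →
  (∀ n, a n ≤ C * (n + 1) ^ h) → ∀ I ≥ I₀, ∃ (F : ℕ → Finset ℕ) (z : ℕ → ℕ → ℕ),
    (∀ i < I / (h * K), F i ⊆ Finset.Ico I (3 * I) ∧ (F i).card ≤ h * K ∧ (∀ x, z i x ≤ V) ∧
      ∀ b : ℕ → ℕ, (∀ x ∈ F i, b x = a x + z i x) → ∃ m, K ≤ repO (Set.range b) h m) ∧
    ∀ i < I / (h * K), ∀ i' < I / (h * K), i ≠ i' → Disjoint (F i) (F i')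

/-- (PRB) From GRE. Fix `K`, `ε = 1 / (4 h K)`. For large `I` all `x ≥ I` and all `z ≤ V` satisfy `P (Z x = z) ≥ x ^ (-ε) ≥ (3 I) ^ (-ε)`.
The events `E i = {Z x = z i x for all x ∈ F i}`, `i < I / (h K)`, are independent (disjoint sets of indices, `iIndepFun.indepFun_finset` /
`iIndepFun.measure_inter_preimage_eq_mul` as in `Pool.Agent.V5helper43.ET.Shifts`) with probability at least `(3 I) ^ (-1/4)`, and on `E i` there is `m`
with `K ≤ repO A' h m`, `A' = range (a + Z)`. So the probability that no `m` has `K` representations is at most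
`(1 - (3 I) ^ (-1/4)) ^ (I / (h K)) ≤ exp (- (3 I) ^ (-1/4) (I / (h K) - 1))`, which tends to `0` for `I → ∞`. -/
def S_PRB : Prop := ∀ (Ω : Type) [MeasurableSpace Ω] (μ : Measure Ω) [IsProbabilityMeasure μ] (h C : ℕ) (a : ℕ → ℕ)
  (Z : ℕ → Ω → ℕ), 2 ≤ h → StrictMono a → (∀ n, a n ≤ C * (n + 1) ^ h) → (∀ n, Measurable (Z n)) → iIndepFun Z μ →
  (∀ (z : ℕ) (ε : ℝ), 0 < ε → ∀ᶠ n : ℕ in Filter.atTop, (n : ℝ) ^ (-ε) ≤ μ.real {ω | Z n ω = z}) →
  ∀ᵐ ω ∂μ, ∀ K : ℕ, ∃ m, K ≤ repO (Set.range (fun n => a n + Z n ω)) h m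

/-! ## Theorem B -/

/-- elements of `X` whose distance below `n` lies in `[W b ^ j, W b ^ (j + 1))` -/
def shell (X : Finset ℕ) (b W n j : ℕ) : Finset ℕ :=
  X.filter (fun y => y + W * b ^ j ≤ n ∧ n < y + W * b ^ (j + 1))

/-- elements of `X` in `(n - W b ^ j, n]` -/
def near (X : Finset ℕ) (b W n j : ℕ) : Finset ℕ :=
  X.filter (fun y => y ≤ n ∧ n < y + W * b ^ j)

/-- the union of the blocks `B k`, the `k`-th block being translated by `s k` -/
def shifted (B : ℕ → Set ℕ) (s : ℕ → ℕ) : Set ℕ := {x | ∃ k, ∃ b ∈ B k, x = b + s k}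

/-- (HNR) `K ≥ 1` bounds the number of the ordered representations by `X`. The `(card near) ^ h` tuples of elements of `near X b W n j` have
sums in `(h n - h W b ^ j, h n]` (`h W b ^ j` numbers), each at most `K` times. -/
def S_HNR : Prop := ∀ (h b W n j K : ℕ) (X : Finset ℕ), 1 ≤ h → (∀ m, repO (X : Set ℕ) h m ≤ K) →
  (near X b W n j).card ^ h ≤ K * (h * (W * b ^ j))

/-- (MSP) Many scales: copy of `many_scales_explicit` and `many_scales_poly` in `Pool.Agent.V5helper43.ET.Scales` with `4` replaced by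
`b = 2 ^ h`. Instead of `card_near_sq_le` use `S_HNR`: `card (near … j) ≤ T h W 2 ^ j` (its `h`-th power is at most `T h W b ^ j`, and
`x ≤ T h W 2 ^ j` follows from `x ^ h ≤ T h W (2 ^ j) ^ h`). The depths are `l 0 = 0`, `l (i + 1) = h l i + (q + 1)` (so that
`T h W 2 ^ (k - l (i+1)) ≤ c 2 ^ k / (4 (T + 1) b ^ (l i))`), `l T ≤ h ^ T (q + 1)` (`h ≥ 2`); the loss is polynomial in `M` with an exponent
depending on `h` and `T` only. Moreover (last line) there is a point `p` with many elements of `X` in `(p - W b ^ (k - L - h), p]`: pigeonhole,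
the range `[0, W b ^ k)` consists of `b ^ (L + h)` such intervals, and `b ^ (L + h) ≤ M ^ s`. -/
def S_MSP : Prop := ∀ h T : ℕ, 2 ≤ h → ∃ s₀ M₀ c₀ : ℕ, ∀ M ≥ M₀, ∀ W : ℕ, 0 < W → W ≤ M →
  ∃ L : ℕ, L + 1 + h ≤ M ^ c₀ ∧ ∀ k ≥ L + h, ∀ X : Finset ℕ,
    (∀ x ∈ X, x < W * (2 ^ h) ^ k) → 2 ^ k ≤ M * X.card → (∀ m, repO (X : Set ℕ) h m ≤ T) →
    (∃ n : ℕ, ∃ j : Fin T → ℕ, Function.Injective j ∧
      ∀ i, k - L ≤ j i ∧ j i < k ∧ 2 ^ k ≤ M ^ s₀ * (shell X (2 ^ h) W n (j i)).card) ∧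
    ∃ p : ℕ, 2 ^ k ≤ M ^ s₀ * (near X (2 ^ h) W p (k - L - h)).card

end Pool.Agent.V5helper43.EH
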